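import Pool.Agent.V5helper54.CW.Main

/-!
# Long chains `p_{j+1} = 2 p_j + h_j` of primes, for a positive proportion of the perturbations in EVERY box of windows

A Cunningham chain of the first kind is a sequence of primes `p_{j+1} = 2 p_j + h_j` with all `h_j = 1`. Let `k ≥ 1` and
`δ, η > 0` be fixed. For all large `x`, EVERY set `S` of at least `η x / log x` primes in `(x, 2x]` (a positive proportion
of them) and EVERY box of windows `u_j < h_j ≤ u_j + H_j ≤ x` of any lengths `H_j ≥ x^(1/6+δ)`, `j < k`, for a positive
proportion of the vectors `h` in the box (at least `c ∏ H_j` of them) at least `c x / log^(k+1) x` of the primes `p ∈ S` (the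
order of magnitude of the expected number) start a chain `p_0 = p, p_1 = 2 p_0 + h_0, …, p_k = 2 p_(k-1) + h_(k-1)` of `k + 1`
primes. In particular (`u_j = 0`) this holds for a positive proportion of the vectors `h` with `1 ≤ h_j ≤ x^(1/6+δ)`.
The constant `c` depends on `k`, `δ` and `η` only, not on `S` and the windows.

Proof. First moment: almost all intervals of length `x^(1/6+δ)` contain the expected order of magnitude of primes (Huxley;
from helper50's `Pool.Agent.V5helper50.PW.blocks`, which rests on `Pool.Agent.V5helper51.CR6`), with an exceptional set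
smaller by any power of the logarithm, so that this can be applied along the chain, to sets which become thinner by a
logarithm in each step. Upper bound: Selberg's sieve for the `k + 1` linear forms `2^j n + b_j` (`CW.Sieve`, an extension
of the sieve of the starting files for translations, `Pool.Agent.H646`), with a singular factor whose mean square over the
box is bounded (`CW.Main`, moments of `n / φ(n)` in short intervals `Pool.Agent.H373R2.BH.rat_shift`). The result follows
by the Cauchy-Schwarz inequality.
-/

set_option autoImplicit false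

open Finset

namespace Pool.Agent.Results.MP_c77da8_nt.EveryWindowOfPerturbations

/-- the chain `p_0 = p, p_(j+1) = 2 p_j + h_j` (with `h_j = 0` for `j ≥ k`) -/
def chain {k : ℕ} (h : Fin k → ℕ) (p : ℕ) : ℕ → ℕ
  | 0 => p
  | j + 1 => 2 * chain h p j + (if hj : j < k then h ⟨j, hj⟩ else 0)

/-- the vectors `h` with `u_j < h_j ≤ u_j + H_j` -/
def Box {k : ℕ} (u H : Fin k → ℕ) : Finset (Fin k → ℕ) := Fintype.piFinset fun j => Ioc (u j) (u j + H j)

open Classical in
/-- the elements `p` of `S` for which all the `k + 1` terms `p_0, …, p_k` of the chain are prime -/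
noncomputable def Starts {k : ℕ} (S : Finset ℕ) (h : Fin k → ℕ) : Finset ℕ :=
  S.filter (fun p => ∀ j ≤ k, (chain h p j).Prime)

lemma chain_eq {k : ℕ} (h : Fin k → ℕ) (p j : ℕ) :
    chain h p j = Pool.Agent.V5helper54.CW.ch (Pool.Agent.V5helper54.CW.ext h) p j := by
  induction j with
  | zero => rfl
  | succ j ih =>
    simp only [chain, Pool.Agent.V5helper54.CW.ch]
    rw [ih]
    rfl

open Classical in
/-- **Main result.** See the text above. -/
theorem result (k : ℕ) (hk : 1 ≤ k) (δ η : ℝ) (hδ : 0 < δ) (hη : 0 < η) : ∃ c : ℝ, 0 < c ∧ ∃ x₀ : ℕ, ∀ x : ℕ, x₀ ≤ x →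
    ∀ S : Finset ℕ, (∀ p ∈ S, p.Prime ∧ x < p ∧ p ≤ 2 * x) → η * (x / Real.log x) ≤ S.card →
    ∀ u H : Fin k → ℕ, (∀ j, u j + H j ≤ x ∧ (x : ℝ) ^ (1 / 6 + δ) ≤ H j) →
    c * ∏ j, (H j : ℝ) ≤
      (((Box u H).filter (fun h => c * (x / Real.log x ^ (k + 1)) ≤ ((Starts S h).card : ℝ))).card : ℝ) := by
  obtain ⟨c, hc, x0, hx0⟩ := Pool.Agent.V5helper54.CW.chain_main k hk δ η hδ hη
  refine ⟨c, hc, x0, fun x hx S hS hSc u H huH => ?_⟩
  refine (hx0 x hx S hS hSc u H huH).trans (le_of_eq ?_)
  unfold Box Starts
  congr 2
  apply filter_congr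
  intro h _
  simp only [chain_eq]

end Pool.Agent.Results.MP_c77da8_nt.EveryWindowOfPerturbations
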