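import Mathlib
import Pool.Agent.V5helper70.CC.Sub

/-!
# Isolated pairs of consecutive primes in the Cunningham sequences of the first kind, for half of the times
at once, at all scales of a sequence, with `p + 1` divisible by any given number

`c_t(p) = b ^ t (p + 1) - 1` with `b ≥ 2`; a Cunningham chain of the first kind of length `k` is a prime `p`
for which `c_t(p)` is prime for `t < k`, with `b = 2`.

There is an absolute constant `B` such that every infinite set `𝒩` of scales has an infinite subset `𝒩'`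
with the following property. For all `b ≥ 2`, `R` and `ε > 0` there is `M` such that for EVERY multiple
`N` of `M` there is `L` such that among any `T ≥ L` consecutive multiples `j` of `N` at least
`(1/2 - ε) T` are good. Here `j` is good if for every `q` there is `D` such that for ALL sufficiently large
`x ∈ 𝒩'` at least `x / (log x) ^ B` primes `p ∈ [x, D x]` with `p ≡ -1 (mod q)` have the following property:
`c_j(p)` is prime, all terms at times `0 < l < j` are composite, the `R` terms after time `j` are composite,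
and `p` is not a term at a time `0 < l ≤ R` of the sequence of another prime.

So for half of the times `j`, all moduli `q` and all bases `b` these primes exist at the same scales. In the
starting theorem `Pool.Agent.Y862.transferH` there are `x ^ (1 - η)` primes for arbitrarily large `x` which
depend on `j`, and there is no condition on `p`.

Proof: for four classes of times the theorem on classes of linear forms (`Pool.Agent.Y827.RO.lamRD`) at the
scales of an ultrafilter gives an exact pattern of primes with elements of two classes, the same pattern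
for all moduli `q`; the theorem on sets which contain a difference of two of any four classes
(`Pool.Agent.W25.TF.tf4`); and an infinite set of scales along which the countably many statements hold.
-/

set_option autoImplicit false

namespace Pool.Agent.Results.MP_c77da8_nt.IsolatedGapsAtScales

open Filter Pool.Agent.V5helper70.CC

theorem result : ∃ B : ℕ, ∀ 𝒩 : Set ℕ, 𝒩.Infinite → ∃ 𝒩' : Set ℕ, 𝒩' ⊆ 𝒩 ∧ 𝒩'.Infinite ∧
    ∀ b : ℕ, 2 ≤ b → ∀ (R : ℕ) (ε : ℝ), 0 < ε →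
    ∃ M : ℕ, 0 < M ∧ ∀ N : ℕ, 0 < N → M ∣ N → ∃ L : ℕ, ∀ T : ℕ, L ≤ T → ∀ u : ℕ,
      (1 / 2 - ε) * (T : ℝ) ≤ ({k : ℕ | u < k ∧ k ≤ u + T ∧ ∀ q : ℕ, 0 < q → ∃ D : ℕ,
        ∀ᶠ x : ℕ in atTop, x ∈ 𝒩' → (x : ℝ) / (Real.log x) ^ B ≤
          ({p : ℕ | x ≤ p ∧ p ≤ D * x ∧ p.Prime ∧ q ∣ p + 1 ∧
            (b ^ (N * k) * (p + 1) - 1).Prime ∧
            (∀ l, 0 < l → l < N * k → ¬ (b ^ l * (p + 1) - 1).Prime) ∧
            ∀ l, 0 < l → l ≤ R → ¬ (b ^ (N * k + l) * (p + 1) - 1).Prime ∧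
              ∀ p' : ℕ, p'.Prime → b ^ l * (p' + 1) - 1 ≠ p}.ncard : ℝ)}.ncard : ℝ) := by
  classical
  obtain ⟨K, hK, hBase⟩ := base 4
  have hB := hBase (by norm_num)
  obtain ⟨B, hBd⟩ : ∃ B : ℕ, B = 4 * K + 2 := ⟨_, rfl⟩
  refine ⟨B + 1, fun 𝒩 h𝒩 => ?_⟩
  obtain ⟨𝒰, h𝒰, hmem⟩ := exists_ultra h𝒩
  have key : ∀ b R j q : ℕ, ∃ D : ℕ, ∀ᶠ x : ℕ in (𝒰 : Filter ℕ), j ∈ GapS 𝒰 B b R → 0 < q →
      (x : ℝ) / (Real.log x) ^ (B + 1) ≤
          ({p : ℕ | x ≤ p ∧ p ≤ D * x ∧ p.Prime ∧ q ∣ p + 1 ∧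
            (b ^ j * (p + 1) - 1).Prime ∧
            (∀ l, 0 < l → l < j → ¬ (b ^ l * (p + 1) - 1).Prime) ∧
            ∀ l, 0 < l → l ≤ R → ¬ (b ^ (j + l) * (p + 1) - 1).Prime ∧
              ∀ p' : ℕ, p'.Prime → b ^ l * (p' + 1) - 1 ≠ p}.ncard : ℝ) := by
    intro b R j q
    by_cases hj : j ∈ GapS 𝒰 B b R ∧ 0 < q
    swap
    · exact ⟨0, Eventually.of_forall fun N h1 h2 => absurd ⟨h1, h2⟩ hj⟩
    obtain ⟨D, hD⟩ := (hj.1 q hj.2).log h𝒰
    refine ⟨D, ?_⟩
    filter_upwards [hD] with x hx _ _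
    refine hx.trans ?_
    rw [Nat.cast_le]
    refine Set.ncard_le_ncard ?_ ((Set.finite_Iic (D * x)).subset fun p hp => hp.2.1)
    rintro p ⟨⟨h4, h5, h6, h6', h6''⟩, h7, h8⟩
    exact ⟨h7, h8, h4, h5, h6, h6', h6''⟩
  choose D hD using key
  obtain ⟨𝒩', h1, h2, h3⟩ := pseudo (ι := ℕ × ℕ × ℕ × ℕ) h𝒰
    (fun i x => i.2.2.1 ∈ GapS 𝒰 B i.1 i.2.1 → 0 < i.2.2.2 →
      (x : ℝ) / (Real.log x) ^ (B + 1) ≤
          ({p : ℕ | x ≤ p ∧ p ≤ D i.1 i.2.1 i.2.2.1 i.2.2.2 * x ∧ p.Prime ∧ i.2.2.2 ∣ p + 1 ∧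
            (i.1 ^ i.2.2.1 * (p + 1) - 1).Prime ∧
            (∀ l, 0 < l → l < i.2.2.1 → ¬ (i.1 ^ l * (p + 1) - 1).Prime) ∧
            ∀ l, 0 < l → l ≤ i.2.1 → ¬ (i.1 ^ (i.2.2.1 + l) * (p + 1) - 1).Prime ∧
              ∀ p' : ℕ, p'.Prime → i.1 ^ l * (p' + 1) - 1 ≠ p}.ncard : ℝ))
    (fun i => hD i.1 i.2.1 i.2.2.1 i.2.2.2) hmem
  refine ⟨𝒩', h1, h2, fun b hb R ε hε => ?_⟩
  obtain ⟨M, hM, h4⟩ := half hK hB h𝒰 hb R ε hε
  rw [← hBd] at h4
  refine ⟨M, hM, fun N hN hdv => ?_⟩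
  obtain ⟨L, hL⟩ := h4 N hN hdv
  refine ⟨L, fun T hT u => (hL T hT u).trans ?_⟩
  rw [Nat.cast_le]
  refine Set.ncard_le_ncard ?_ ((Set.finite_Ioc u (u + T)).subset fun k hk => ⟨hk.1, hk.2.1⟩)
  rintro k ⟨hk1, hk2, hk3⟩
  refine ⟨hk1, hk2, fun q hq => ⟨D b R (N * k) q, ?_⟩⟩
  filter_upwards [h3 (b, R, N * k, q)] with x hx hx'
  exact hx hx' hk3 hq

end Pool.Agent.Results.MP_c77da8_nt.IsolatedGapsAtScales
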