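import Mathlib
import Pool.Agent.V5helper70.CC.Sub

/-!
# The primes of Cunningham orbits of the first kind follow every finite pattern up to a bounded error, at
all scales of a sequence, with `p + 1` divisible by any given number

A Cunningham chain of the first kind of length `k` is a prime `p` for which `b ^ t (p + 1) - 1` is prime for
`t = 0, ..., k - 1`, with `b = 2`. Let `b ≥ 2`.

Every infinite set `𝒩` of scales has an infinite subset `𝒩'` such that for all `b`, `k` and `m` there is `C`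
with the following property. For EVERY set `V` of at most `k` times which contains `0` there is a finite
set `H` of times which contains `0`, has at least `m` elements within `C` of each element of `V` and no
other elements, and for all `R` and `q` there is `D` such that for ALL sufficiently large `N ∈ 𝒩'` at
least `N / (log N) ^ B` primes `p ∈ [N, D N]` with `p ≡ -1 (mod q)` have exactly the pattern `H` up to time
`R`: for all `t ≤ R`, `b ^ t (p + 1) - 1` is prime if and only if `t ∈ H`. The exponent `B` depends only on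
`k` and `m` (not on `b`, `𝒩`, `V`, `R`, `q`).

So all patterns, for all `V`, all `b` and all moduli, are found at the same scales. The starting theorem
`Pool.Agent.W218.OG.patterns` has one pattern at a time, `x ^ (1 - η)` primes for arbitrarily large `x`
which depend on everything, and no condition on the prime.

Proof: the theorem on classes of linear forms (`Pool.Agent.Y827.RO.lamRD`), which holds at every large scale
with constant terms as large as the variable, for the forms `b ^ t q (Q n + r) - 1`; the other terms are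
made composite by the prime factors of `Q`. The class of sets which have many elements at almost all
scales of an ultrafilter is partition regular and invariant under `M ↦ b ^ j M`; the theorem on patterns
up to a bounded error for translation invariant families (density Hales-Jewett), with a bound for the
number of cells; a choice of `H` which is uniform in `q`; and an infinite set of scales along which the
countably many statements hold.
-/

set_option autoImplicit false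

namespace Pool.Agent.Results.MP_c77da8_nt.PatternsAtScales

open Filter Pool.Agent.V5helper70.CC

theorem result : ∃ B : ℕ → ℕ → ℕ, ∀ 𝒩 : Set ℕ, 𝒩.Infinite → ∃ 𝒩' : Set ℕ, 𝒩' ⊆ 𝒩 ∧ 𝒩'.Infinite ∧
    ∀ b : ℕ, 2 ≤ b → ∀ k m : ℕ, ∃ C : ℕ, ∀ V : Finset ℕ, 0 ∈ V → V.card ≤ k →
    ∃ H : Finset ℕ, 0 ∈ H ∧ (∀ x ∈ V, m ≤ (H.filter (fun h : ℕ => |(h : ℤ) - x| ≤ C)).card) ∧
      (∀ h ∈ H, ∃ x ∈ V, |(h : ℤ) - x| ≤ C) ∧
      ∀ R q : ℕ, 0 < q → ∃ D : ℕ, ∀ᶠ N : ℕ in atTop, N ∈ 𝒩' →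
        (N : ℝ) / (Real.log N) ^ B k m ≤ ({p : ℕ | N ≤ p ∧ p ≤ D * N ∧ p.Prime ∧ q ∣ p + 1 ∧
          ∀ t ≤ R, ((b ^ t * (p + 1) - 1).Prime ↔ t ∈ H)}.ncard : ℝ) := by
  classical
  choose B hB using patterns
  refine ⟨fun k m => B k m + 1, fun 𝒩 h𝒩 => ?_⟩
  obtain ⟨𝒰, h𝒰, hmem⟩ := exists_ultra h𝒩
  have key : ∀ b k m : ℕ, ∃ C : ℕ, ∀ V : Finset ℕ, ∃ H : Finset ℕ,
      (2 ≤ b → 0 ∈ V → V.card ≤ k → 0 ∈ H ∧
        (∀ x ∈ V, m ≤ (H.filter (fun h : ℕ => |(h : ℤ) - x| ≤ C)).card) ∧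
        (∀ h ∈ H, ∃ x ∈ V, |(h : ℤ) - x| ≤ C)) ∧
      ∀ R q : ℕ, ∃ D : ℕ, ∀ᶠ N : ℕ in (𝒰 : Filter ℕ), 2 ≤ b → 0 ∈ V → V.card ≤ k → 0 < q →
        (N : ℝ) / (Real.log N) ^ (B k m + 1) ≤ ({p : ℕ | N ≤ p ∧ p ≤ D * N ∧ p.Prime ∧ q ∣ p + 1 ∧
          ∀ t ≤ R, ((b ^ t * (p + 1) - 1).Prime ↔ t ∈ H)}.ncard : ℝ) := by
    intro b k m
    by_cases hb : 2 ≤ b
    swap
    · exact ⟨0, fun V => ⟨∅, fun h => absurd h hb, fun R q => ⟨0, Eventually.of_forall
        fun N h => absurd h hb⟩⟩⟩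
    obtain ⟨C, hC⟩ := hB k m 𝒰 h𝒰 b hb
    refine ⟨C, fun V => ?_⟩
    by_cases hV : 0 ∈ V ∧ V.card ≤ k
    swap
    · exact ⟨∅, fun _ h1 h2 => absurd ⟨h1, h2⟩ hV, fun R q => ⟨0, Eventually.of_forall
        fun N _ h1 h2 => absurd ⟨h1, h2⟩ hV⟩⟩
    obtain ⟨H, h0, h1, h2, h3⟩ := hC V hV.1 hV.2
    refine ⟨H, fun _ _ _ => ⟨h0, h1, h2⟩, fun R q => ?_⟩
    by_cases hq : 0 < q
    swap
    · exact ⟨0, Eventually.of_forall fun N _ _ _ h => absurd h hq⟩
    obtain ⟨D, hD⟩ := (h3 R q hq).log h𝒰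
    refine ⟨D, ?_⟩
    filter_upwards [hD] with N hN _ _ _ _
    refine hN.trans ?_
    rw [Nat.cast_le]
    refine Set.ncard_le_ncard ?_ ((Set.finite_Iic (D * N)).subset fun p hp => hp.2.1)
    rintro p ⟨⟨h4, h5, h6⟩, h7, h8⟩
    exact ⟨h7, h8, h4, h5, h6⟩
  choose C H hH D hD using key
  obtain ⟨𝒩', h1, h2, h3⟩ := pseudo (ι := ℕ × ℕ × ℕ × Finset ℕ × ℕ × ℕ) h𝒰
    (fun i N => 2 ≤ i.1 → 0 ∈ i.2.2.2.1 → i.2.2.2.1.card ≤ i.2.1 → 0 < i.2.2.2.2.2 →
        (N : ℝ) / (Real.log N) ^ (B i.2.1 i.2.2.1 + 1) ≤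
          ({p : ℕ | N ≤ p ∧ p ≤ D i.1 i.2.1 i.2.2.1 i.2.2.2.1 i.2.2.2.2.1 i.2.2.2.2.2 * N ∧
            p.Prime ∧ i.2.2.2.2.2 ∣ p + 1 ∧
          ∀ t ≤ i.2.2.2.2.1, ((i.1 ^ t * (p + 1) - 1).Prime ↔
            t ∈ H i.1 i.2.1 i.2.2.1 i.2.2.2.1)}.ncard : ℝ))
    (fun i => hD i.1 i.2.1 i.2.2.1 i.2.2.2.1 i.2.2.2.2.1 i.2.2.2.2.2) hmem
  refine ⟨𝒩', h1, h2, fun b hb k m => ⟨C b k m, fun V hV0 hVk => ?_⟩⟩
  obtain ⟨h4, h5, h6⟩ := hH b k m V hb hV0 hVk
  refine ⟨H b k m V, h4, h5, h6, fun R q hq => ⟨D b k m V R q, ?_⟩⟩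
  filter_upwards [h3 (b, k, m, V, R, q)] with N hN hN'
  exact hN hN' hb hV0 hVk hq

end Pool.Agent.Results.MP_c77da8_nt.PatternsAtScales
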