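import Pool.Agent.V5helper54.CS.Cls2
import Pool.Agent.V5helper54.CS.Step3

/-!
# Perturbed Cunningham chains starting in an arbitrary dense set of primes

A Cunningham chain of the first kind is a chain of primes `p_0, p_1, …` with `p_{i+1} = 2 p_i + 1`. We consider chains
of primes with `p_{i+1} = 2 p_i + h_i`, where the numbers `h_i ≡ 1` modulo a small primorial `M = primorial y`,
`y` between `K₀ log log x` and `K₁ log log x`, are taken from arbitrary windows of length `x^(1/3) log^D x`; the
question is about `h_i = 1` for all `i`.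

For the primes `p` for which the numbers `2^i (p + 1) - 1`, `i ≤ k`, have no prime factors `≤ y` (there are at least
`x / log² x` of them up to `x`; every prime which starts a chain of length `k + 1` is one of them, or is at most `y`), and
for EVERY subset `S` of them with at least `x / log^A x` elements, the number of `p ∈ S` such that all the numbers
`p_0 = p, p_1, …, p_k` are primes is for almost all vectors of perturbations `(h_0, …, h_{k-1})` at least `1 - ε` times
the expected number `#S / (V(y) log x)^k`.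

The general form of the theorem is about numbers `b_i s + u_i + M n_i` for `s` in an arbitrary dense set `S` of
integers, where `n_i` is in an arbitrary window of length `≥ x^(1/3) log^D x / M` and the coefficients `b_i ≤ B` and
`u_i ≤ B x` may depend in an arbitrary way on `n_0, …, n_{i-1}`.

Proof. One step (`k = 1`) is the theorem of helper51 on the translations of dense sets in short windows
(`Pool.Agent.V5helper51.SG.Short`), which rests on the L¹ estimate for `Λ` minus a truncated Ramanujan model along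
arbitrary sequences of small additive energy in windows of length `x^(1/3) log^D x` (`las_all`), combined with a sieve
argument for the primes between `y` and a power of `log x`. For `k` steps: for most `n_0` the set `S_1` of the `s ∈ S`
with `b_0 s + u_0 + M n_0` prime is again dense, and the theorem applies to `S_1` and the next form.
-/

set_option autoImplicit false

open Finset

namespace Pool.Agent.Results.MP_c77da8_nt.PerturbedChains

/-- the product of `1 - 1/q` over the primes `q ≤ y` -/
noncomputable def V (y : ℕ) : ℝ := ∏ q ∈ (Icc 1 y).filter Nat.Prime, (1 - 1 / (q : ℝ))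

open Classical in
/-- the primes `p ≤ x` for which none of the numbers `2^i (p + 1) - 1`, `i ≤ k`, has a prime factor `≤ y` -/
noncomputable def Good (k y x : ℕ) : Finset ℕ :=
  (Icc 1 x).filter fun p => p.Prime ∧ ∀ i ≤ k, ∀ q : ℕ, q.Prime → q ≤ y → ¬ q ∣ 2 ^ i * (p + 1) - 1

/-- the chain `p_0 = p`, `p_{i+1} = 2 p_i + 1 + M n_i` (`i < k`) -/
def chain {k : ℕ} (M : ℕ) (n : Fin k → ℕ) (p : ℕ) : ℕ → ℕ
  | 0 => p
  | i + 1 => 2 * chain M n p i + 1 + M * (if h : i < k then n ⟨i, h⟩ else 0)

/-- the vectors `n` with `w_i < n_i ≤ w_i + G_i` -/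
def Box {k : ℕ} (w G : Fin k → ℕ) : Finset (Fin k → ℕ) := Fintype.piFinset fun i => Ioc (w i) (w i + G i)

/-- `p_i + 1 = 2^i (p + 1) + M E_i` -/
def E {k : ℕ} (n : Fin k → ℕ) : ℕ → ℕ
  | 0 => 0
  | i + 1 => 2 * E n i + (if h : i < k then n ⟨i, h⟩ else 0)

lemma chain_eq {k : ℕ} (M : ℕ) (n : Fin k → ℕ) (p i : ℕ) : chain M n p i + 1 = 2 ^ i * (p + 1) + M * E n i := by
  induction i with
  | zero => simp [chain, E]
  | succ i ih =>
    rw [chain, E]
    have h1 : 2 * chain M n p i + 1 + M * (if h : i < k then n ⟨i, h⟩ else 0) + 1 =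
        2 * (chain M n p i + 1) + M * (if h : i < k then n ⟨i, h⟩ else 0) := by ring
    rw [h1, ih, pow_succ]
    ring

lemma E_congr {k : ℕ} (n n' : Fin k → ℕ) (i : ℕ) (h : ∀ j : Fin k, (j : ℕ) < i → n j = n' j) : E n i = E n' i := by
  induction i with
  | zero => rfl
  | succ i ih =>
    rw [E, E, ih (fun j hj => h j (by omega))]
    split_ifs with hk
    · rw [h ⟨i, hk⟩ (by simp)]
    · rfl

lemma E_le {k : ℕ} (M x : ℕ) (n : Fin k → ℕ) (i : ℕ) (h : ∀ j, M * n j ≤ x) : M * E n i + x ≤ 2 ^ i * x := by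
  induction i with
  | zero => simp [E]
  | succ i ih =>
    rw [E, pow_succ]
    have h1 : M * (if h : i < k then n ⟨i, h⟩ else 0) ≤ x := by
      split_ifs with hk
      · exact h _
      · omega
    calc M * (2 * E n i + (if h : i < k then n ⟨i, h⟩ else 0)) + x
        = 2 * (M * E n i + x) + M * (if h : i < k then n ⟨i, h⟩ else 0) - x := by
          have : M * (2 * E n i + (if h : i < k then n ⟨i, h⟩ else 0)) =
            2 * (M * E n i) + M * (if h : i < k then n ⟨i, h⟩ else 0) := by ring
          omega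
      _ ≤ 2 * (2 ^ i * x) + M * (if h : i < k then n ⟨i, h⟩ else 0) - x := by
          have := Nat.mul_le_mul_left 2 ih
          omega
      _ ≤ 2 ^ i * 2 * x := by
          have : 2 ^ i * 2 * x = 2 * (2 ^ i * x) := by ring
          omega

open Classical in
/-- **Perturbed Cunningham chains.** For all `k`, `A`, `B` and `0 < ε ≤ 1` there is `K₀` such that for every `K₁` there
are `D` and `x₀` such that for `x ≥ x₀` and `K₀ log log x ≤ y ≤ K₁ log log x`, with `M = primorial y`:
(1) `Good k y x` has at least `x / log² x` elements;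
(2) for every subset `S` of `Good k y x` with at least `x / log^A x` elements and all windows `(w_i, w_i + G_i]` with
`M (w_i + G_i) ≤ x` and `M G_i ≥ x^(1/3) log^D x`, for all but at most `ε ∏ G_i` of the vectors `n`, at least
`(1 - ε) #S / (V(y) log x)^k` of the `p ∈ S` have the property that all terms `p_1, …, p_k` of the sequence `p_0 = p`,
`p_{i+1} = 2 p_i + 1 + M n_i` are prime;
(3) the same for the numbers `b_i s + u_i + M n_i`, `s` in an arbitrary set `S` of at least `x / log^A x` positive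
integers up to `x`, where `1 ≤ b_i ≤ B`, `u_i ≤ B x`, `b_i s + u_i` has no prime factor `≤ y`, and `b_i`, `u_i` may
depend on `n_0, …, n_{i-1}`. -/
theorem result (k A B : ℕ) (ε : ℝ) (hε : 0 < ε) (hε1 : ε ≤ 1) : ∃ K₀ : ℕ, ∀ K₁ : ℕ, ∃ D x₀ : ℕ, ∀ x : ℕ, x₀ ≤ x →
    ∀ y : ℕ, K₀ * Real.log (Real.log x) ≤ y → y ≤ K₁ * Real.log (Real.log x) →
      (x : ℝ) / Real.log x ^ 2 ≤ (Good k y x).card ∧
      ∀ w G : Fin k → ℕ, (∀ i, primorial y * (w i + G i) ≤ x ∧
        (x : ℝ) ^ (1 / 3 : ℝ) * Real.log x ^ D ≤ primorial y * G i) →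
        (∀ S : Finset ℕ, S ⊆ Good k y x → (x : ℝ) / Real.log x ^ A ≤ S.card →
          (((Box w G).filter (fun n =>
            ((S.filter (fun p => ∀ i < k, (chain (primorial y) n p (i + 1)).Prime)).card : ℝ) <
              (1 - ε) * (S.card / (V y * Real.log x) ^ k))).card : ℝ) ≤ ε * ∏ i, (G i : ℝ)) ∧
        ∀ S : Finset ℕ, S ⊆ Icc 1 x → (x : ℝ) / Real.log x ^ A ≤ S.card →
          ∀ b u : Fin k → (Fin k → ℕ) → ℕ,
            (∀ i, ∀ v v' : Fin k → ℕ, (∀ j < i, v j = v' j) → b i v = b i v' ∧ u i v = u i v') →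
            (∀ i, ∀ v ∈ Box w G, 1 ≤ b i v ∧ b i v ≤ B ∧ u i v ≤ B * x ∧
              ∀ s ∈ S, ∀ q : ℕ, q.Prime → q ≤ y → ¬ q ∣ b i v * s + u i v) →
          (((Box w G).filter (fun n =>
            ((S.filter (fun s => ∀ i, (b i n * s + u i n + primorial y * n i).Prime)).card : ℝ) <
              (1 - ε) * (S.card / (V y * Real.log x) ^ k))).card : ℝ) ≤ ε * ∏ i, (G i : ℝ) := by
  obtain ⟨K₀, hK₀⟩ := Pool.Agent.V5helper54.CS.affine_adapt k A (max B (2 ^ (k + 2))) ε hε hε1
  refine ⟨K₀, fun K₁ => ?_⟩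
  obtain ⟨D, x0, hx0⟩ := hK₀ K₁
  obtain ⟨x1, hx1⟩ := Pool.Agent.V5helper54.CS.many_good k K₁
  refine ⟨D, max x0 (max x1 3), fun x hx y hy1 hy2 => ?_⟩
  have b1 : x0 ≤ x := le_trans (le_max_left _ _) hx
  have b2 : x1 ≤ x := le_trans (le_trans (le_max_left _ _) (le_max_right _ _)) hx
  have b3 : 3 ≤ x := le_trans (le_trans (le_max_right _ _) (le_max_right _ _)) hx
  have hx3 : (3 : ℝ) ≤ x := by exact_mod_cast b3
  have hL0 : 0 < Real.log x := Real.log_pos (by linarith)
  have main := hx0 x b1 y hy1 hy2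
  refine ⟨?_, fun w G hwG => ?_⟩
  · rw [div_le_iff₀ (by positivity)]
    exact hx1 x b2 y hy2
  have hgen : ∀ S : Finset ℕ, S ⊆ Icc 1 x → (x : ℝ) / Real.log x ^ A ≤ S.card →
      ∀ b u : Fin k → (Fin k → ℕ) → ℕ,
        (∀ i, ∀ v v' : Fin k → ℕ, (∀ j < i, v j = v' j) → b i v = b i v' ∧ u i v = u i v') →
        (∀ i, ∀ v ∈ Box w G, 1 ≤ b i v ∧ b i v ≤ max B (2 ^ (k + 2)) ∧ u i v ≤ max B (2 ^ (k + 2)) * x ∧
          ∀ s ∈ S, ∀ q : ℕ, q.Prime → q ≤ y → ¬ q ∣ b i v * s + u i v) →
      (((Box w G).filter (fun n =>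
        ((S.filter (fun s => ∀ i, (b i n * s + u i n + primorial y * n i).Prime)).card : ℝ) <
          (1 - ε) * (S.card / (V y * Real.log x) ^ k))).card : ℝ) ≤ ε * ∏ i, (G i : ℝ) := by
    intro S hS hSc b u hdep hbu
    have h := main S hS (by rwa [div_le_iff₀ (by positivity)] at hSc) w G hwG b u hdep (by
      intro i v hv
      apply hbu i v
      unfold Box
      rw [Fintype.mem_piFinset]
      intro j
      rw [mem_Ioc]
      exact hv j)
    exact h
  refine ⟨fun S hS hSc => ?_, fun S hS hSc b u hdep hbu => hgen S hS hSc b u hdep (fun i v hv => ?_)⟩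
  swap
  · obtain ⟨c1, c2, c3, c4⟩ := hbu i v hv
    exact ⟨c1, c2.trans (le_max_left _ _), c3.trans (Nat.mul_le_mul_right x (le_max_left _ _)), c4⟩
  -- the chain
  have hGood : ∀ p ∈ S, p.Prime ∧ ∀ i ≤ k, ∀ q : ℕ, q.Prime → q ≤ y → ¬ q ∣ 2 ^ i * (p + 1) - 1 := by
    intro p hp
    have h1 := hS hp
    unfold Good at h1
    rw [mem_filter] at h1
    exact h1.2
  have h := hgen S (hS.trans (by unfold Good; exact filter_subset _ _)) hSc
    (fun i _ => 2 ^ ((i : ℕ) + 1)) (fun i v => 2 ^ ((i : ℕ) + 1) - 1 + primorial y * (2 * E v i)) (by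
      intro i v v' hvv
      refine ⟨rfl, ?_⟩
      rw [E_congr v v' i (fun j hj => hvv j hj)]) (by
      intro i v hv
      have hvj : ∀ j, primorial y * v j ≤ x := by
        intro j
        unfold Box at hv
        rw [Fintype.mem_piFinset] at hv
        have h1 := mem_Ioc.1 (hv j)
        exact (Nat.mul_le_mul_left _ h1.2).trans (hwG j).1
      have h2i : 2 ^ ((i : ℕ) + 1) ≤ 2 ^ k := Nat.pow_le_pow_right (by norm_num) (by have := i.2; omega)
      have h2k : 2 ^ (k + 2) = 4 * 2 ^ k := by rw [pow_add]; ring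
      refine ⟨Nat.one_le_two_pow, ?_, ?_, ?_⟩
      · refine le_trans ?_ (le_max_right _ _)
        omega
      · refine le_trans ?_ (Nat.mul_le_mul_right x (le_max_right _ _))
        have h1 := E_le (primorial y) x v i hvj
        have h3 : primorial y * (2 * E v i) = 2 * (primorial y * E v i) := by ring
        have h4 : 2 ^ ((i : ℕ) + 1) ≤ 2 ^ k * x := h2i.trans (Nat.le_mul_of_pos_right _ (by omega))
        have h5 : 2 ^ (i : ℕ) * x ≤ 2 ^ k * x := Nat.mul_le_mul_right x (Nat.pow_le_pow_right (by norm_num) (by have := i.2; omega))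
        have h6 : 2 ^ (k + 2) * x = 4 * (2 ^ k * x) := by rw [h2k]; ring
        omega
      · intro s hs q hq hqy hd
        have h1 := (hGood s hs).2 ((i : ℕ) + 1) (by have := i.2; omega) q hq hqy
        apply h1
        have h2 : q ∣ primorial y := hq.dvd_primorial_iff.2 hqy
        have h3 : 2 ^ ((i : ℕ) + 1) * s + (2 ^ ((i : ℕ) + 1) - 1 + primorial y * (2 * E v i)) =
            (2 ^ ((i : ℕ) + 1) * (s + 1) - 1) + primorial y * (2 * E v i) := by
          have h4 : 1 ≤ 2 ^ ((i : ℕ) + 1) := Nat.one_le_two_pow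
          have h5 : 2 ^ ((i : ℕ) + 1) * (s + 1) = 2 ^ ((i : ℕ) + 1) * s + 2 ^ ((i : ℕ) + 1) := by ring
          omega
        rw [h3] at hd
        exact (Nat.dvd_add_left (h2.mul_right _)).1 hd)
  refine le_trans (le_of_eq ?_) h
  congr 2
  apply filter_congr
  intro n _
  have hf : S.filter (fun p => ∀ i < k, (chain (primorial y) n p (i + 1)).Prime) =
      S.filter (fun s => ∀ i : Fin k, ((fun i _ => 2 ^ ((i : ℕ) + 1) : Fin k → (Fin k → ℕ) → ℕ) i n * s +
        (fun i v => 2 ^ ((i : ℕ) + 1) - 1 + primorial y * (2 * E v i) : Fin k → (Fin k → ℕ) → ℕ) i n +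
          primorial y * n i).Prime) := by
    apply filter_congr
    intro p _
    have hterm : ∀ i : Fin k, chain (primorial y) n p ((i : ℕ) + 1) = 2 ^ ((i : ℕ) + 1) * p +
        (2 ^ ((i : ℕ) + 1) - 1 + primorial y * (2 * E n i)) + primorial y * n i := by
      intro i
      have h1 := chain_eq (primorial y) n p ((i : ℕ) + 1)
      have h2 : E n ((i : ℕ) + 1) = 2 * E n i + n i := by
        rw [E, dif_pos i.2]
      rw [h2] at h1
      have h4 : 1 ≤ 2 ^ ((i : ℕ) + 1) := Nat.one_le_two_pow
      have h5 : 2 ^ ((i : ℕ) + 1) * (p + 1) = 2 ^ ((i : ℕ) + 1) * p + 2 ^ ((i : ℕ) + 1) := by ring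
      have h6 : primorial y * (2 * E n i + n i) = primorial y * (2 * E n i) + primorial y * n i := by ring
      omega
    constructor
    · intro h i
      have := h i i.2
      rw [hterm i] at this
      exact this
    · intro h i hi
      have := h ⟨i, hi⟩
      have h2 := hterm ⟨i, hi⟩
      simp only at h2 this
      rw [h2]
      exact this
  rw [hf]

end Pool.Agent.Results.MP_c77da8_nt.PerturbedChains
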